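import Pool.Agent.Q32.LR2.Stm

/-!
# Project LR2: countable closures (`S_CLO`)
-/

set_option autoImplicit false

namespace Q237.LR2

open Q32.LR2

section

variable {G Y : Type} [Group G]

/-- the letters of a word -/
def lets [DecidableEq Y] (u : FreeGroup Y) : Set Y := {y | ∃ b, (y, b) ∈ u.toWord}

theorem lets_finite [DecidableEq Y] (u : FreeGroup Y) : (lets u).Finite := by
  have h : lets u ⊆ (fun p : Y × Bool => p.1) '' {p | p ∈ u.toWord} := by
    rintro y ⟨b, hb⟩
    exact ⟨(y, b), hb, rfl⟩
  exact ((List.finite_toSet _).image _).subset h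

theorem mk_mem_FW (W : Set Y) (L : List (Y × Bool)) (h : ∀ p ∈ L, p.1 ∈ W) :
    FreeGroup.mk L ∈ FW W := by
  induction L with
  | nil => exact Subgroup.one_mem _
  | cons a L ih =>
    have e : FreeGroup.mk (a :: L) = FreeGroup.mk [a] * FreeGroup.mk L := by
      rw [FreeGroup.mul_mk]
      rfl
    rw [e]
    refine Subgroup.mul_mem _ ?_ (ih fun p hp => h p (List.mem_cons_of_mem _ hp))
    have h1 : FreeGroup.of a.1 ∈ FW W :=
      Subgroup.subset_closure ⟨a.1, h a List.mem_cons_self, rfl⟩
    obtain ⟨y, b⟩ := a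
    cases b
    · have h2 : (FreeGroup.of y)⁻¹ = FreeGroup.mk [(y, false)] := by
        simp [FreeGroup.of, FreeGroup.invRev]
      rw [← h2]
      exact Subgroup.inv_mem _ h1
    · exact h1

theorem mem_FW_lets [DecidableEq Y] (u : FreeGroup Y) : u ∈ FW (lets u) := by
  have h := mk_mem_FW (lets u) u.toWord (fun p hp => ⟨p.2, hp⟩)
  rwa [FreeGroup.mk_toWord] at h

theorem FW_mono {W W' : Set Y} (h : W ⊆ W') : FW W ≤ FW W' :=
  Subgroup.closure_mono (Set.image_mono h)

/-- conjugation on the free group -/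
def cj (F : Subgroup G) [F.Normal] (e : F ≃* FreeGroup Y) (t : G) : FreeGroup Y →* FreeGroup Y :=
  (e : F →* FreeGroup Y).comp ((MulAut.conjNormal t : F ≃* F).toMonoidHom.comp
    (e.symm : FreeGroup Y →* F))

theorem conj_mem (F : Subgroup G) [F.Normal] (e : F ≃* FreeGroup Y) (W : Set Y) (t : G)
    (h : ∀ y ∈ W, cj F e t (FreeGroup.of y) ∈ FW W) :
    ∀ g ∈ BB F e W, t * g * t⁻¹ ∈ BB F e W := by
  rintro _ ⟨x, hx, rfl⟩
  have h1 : FW W ≤ (FW W).comap (cj F e t) := by
    refine (Subgroup.closure_le _).2 ?_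
    rintro _ ⟨y, hy, rfl⟩
    exact h y hy
  refine ⟨MulAut.conjNormal t x, ?_, ?_⟩
  · have h2 := h1 (show e x ∈ FW W from hx)
    have h3 : cj F e t (e x) = e (MulAut.conjNormal t x) := by
      simp [cj]
    have h4 : cj F e t (e x) ∈ FW W := h2
    rw [h3] at h4
    exact h4
  · simp

theorem mem_of_BB (F : Subgroup G) [F.Normal] (e : F ≃* FreeGroup Y) (W : Set Y) (t : G)
    (h : ∀ g ∈ BB F e W, t * g * t⁻¹ ∈ BB F e W) :
    ∀ y ∈ W, cj F e t (FreeGroup.of y) ∈ FW W := by
  intro y hy
  have h1 : ((e.symm (FreeGroup.of y) : F) : G) ∈ BB F e W := by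
    refine ⟨e.symm (FreeGroup.of y), ?_, rfl⟩
    show e (e.symm (FreeGroup.of y)) ∈ FW W
    rw [MulEquiv.apply_symm_apply]
    exact Subgroup.subset_closure ⟨y, hy, rfl⟩
  obtain ⟨x, hx, hx2⟩ := h _ h1
  have h2 : x = MulAut.conjNormal t (e.symm (FreeGroup.of y)) := by
    apply Subtype.ext
    rw [MulAut.conjNormal_apply]
    exact hx2
  have h3 : cj F e t (FreeGroup.of y) = e x := by
    rw [h2]
    simp [cj]
  rw [h3]
  exact hx

end

theorem clo : S_CLO := by
  intro _ G Y _ _ F H _ e hH Z S hZ hS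
  obtain ⟨T0, hT0⟩ := hH
  set T : Set G := (T0 : Set G) ∪ (T0 : Set G)⁻¹ with hT
  have hTf : T.Finite := T0.finite_toSet.union T0.finite_toSet.inv
  have hTH : ∀ t ∈ T, t ∈ H := by
    rintro t (ht | ht)
    · rw [← hT0]
      exact Subgroup.subset_closure ht
    · rw [← hT0]
      have h := Subgroup.inv_mem (Subgroup.closure (T0 : Set G)) (Subgroup.subset_closure ht)
      rwa [inv_inv] at h
  set nx : Set Y → Set Y := fun A => A ∪ ⋃ t ∈ T, ⋃ y ∈ A, lets (cj F e t (FreeGroup.of y)) with hnx
  set S' : ℕ → Set Y := fun n => nx^[n] S with hS'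
  have hsucc : ∀ n, S' (n + 1) = nx (S' n) := fun n => Function.iterate_succ_apply' nx n S
  refine ⟨S', rfl, ?_, ?_, ?_⟩
  · intro n
    induction n with
    | zero => exact hS
    | succ n ih =>
      rw [hsucc]
      exact ih.union (hTf.biUnion fun t _ => ih.biUnion fun y _ => lets_finite _)
  · refine monotone_nat_of_le_succ fun n => ?_
    rw [hsucc]
    exact Set.subset_union_left
  · set W := Z ∪ ⋃ n, S' n with hW
    have key : ∀ t ∈ T, ∀ g ∈ BB F e W, t * g * t⁻¹ ∈ BB F e W := by
      intro t ht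
      apply conj_mem
      rintro y (hy | hy)
      · exact FW_mono Set.subset_union_left (mem_of_BB F e Z t (fun g hg => hZ t (hTH t ht) g hg) y hy)
      · obtain ⟨n, hn⟩ := Set.mem_iUnion.1 hy
        refine FW_mono ?_ (mem_FW_lets _)
        refine subset_trans ?_ (Set.subset_union_right (s := Z))
        refine subset_trans ?_ (Set.subset_iUnion S' (n + 1))
        rw [hsucc]
        refine subset_trans ?_ Set.subset_union_right
        intro z hz
        exact Set.mem_biUnion ht (Set.mem_biUnion hn hz)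
    have key2 : ∀ t ∈ T, t⁻¹ ∈ T := by
      rintro t (ht | ht)
      · right
        rw [Set.mem_inv, inv_inv]
        exact ht
      · left
        exact ht
    intro h hh
    rw [← hT0] at hh
    have key3 : (∀ g ∈ BB F e W, h * g * h⁻¹ ∈ BB F e W) ∧
        (∀ g ∈ BB F e W, h⁻¹ * g * h ∈ BB F e W) := by
      induction hh using Subgroup.closure_induction with
      | mem t ht =>
        refine ⟨key t (Or.inl ht), ?_⟩
        have h1 := key t⁻¹ (key2 t (Or.inl ht))
        intro g hg
        have h2 := h1 g hg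
        rwa [inv_inv] at h2
      | one =>
        constructor <;>
        · intro g hg
          simpa using hg
      | mul a b _ _ iha ihb =>
        constructor
        · intro g hg
          have h1 := iha.1 _ (ihb.1 g hg)
          have e1 : a * b * g * (a * b)⁻¹ = a * (b * g * b⁻¹) * a⁻¹ := by group
          rwa [e1]
        · intro g hg
          have h1 := ihb.2 _ (iha.2 g hg)
          have e1 : (a * b)⁻¹ * g * (a * b) = b⁻¹ * (a⁻¹ * g * a) * b := by group
          rwa [e1]
      | inv a _ iha =>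
        refine ⟨?_, ?_⟩
        · intro g hg
          rw [inv_inv]
          exact iha.2 g hg
        · intro g hg
          rw [inv_inv]
          exact iha.1 g hg
    exact key3.1

end Q237.LR2
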