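import Pool.Agent.Q32.LR2.Stm

/-!
# Project LR2: reduction to normal subgroups (`S_RED`)
-/

set_option autoImplicit false

namespace Q237.LR2

open Q32.LR2 Pool.Agent.H97R3.VR

theorem red : S_RED := by
  intro hyp G _ F hF hfree H hH
  classical
  have hN : F.normalCore.FiniteIndex := inferInstance
  set N := F.normalCore with hNdef
  have hNF : N ≤ F := Subgroup.normalCore_le F
  -- `N` is free
  have hNfree : IsFreeGroup N := by
    haveI : IsFreeGroup (N.subgroupOf F) := subgroupIsFreeOfIsFree _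
    exact IsFreeGroup.ofMulEquiv (Subgroup.subgroupOfEquivOfLe hNF)
  -- the ambient subgroup
  set K := N ⊔ H with hK
  have hNK : N ≤ K := le_sup_left
  have hHK : H ≤ K := le_sup_right
  set N' : Subgroup K := N.subgroupOf K with hN'
  set H' : Subgroup K := H.subgroupOf K with hH'
  haveI : N'.Normal := inferInstance
  haveI : N'.FiniteIndex := inferInstance
  haveI : IsFreeGroup N' := IsFreeGroup.ofMulEquiv (Subgroup.subgroupOfEquivOfLe hNK).symm
  have hHFG : H'.FG := by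
    have e := Subgroup.subgroupOfEquivOfLe hHK
    rw [← Group.fg_iff_subgroup_fg] at hH ⊢
    haveI : Group.FG H := hH
    exact Group.fg_of_surjective (f := (e.symm : H →* H')) e.symm.surjective
  have hK2 : ∀ g : K, ∃ k ∈ N', ∃ h ∈ H', g = k * h := by
    rintro ⟨g, hg⟩
    have hg2 : g ∈ (N ⊔ H : Subgroup G) := hg
    rw [Subgroup.mem_sup_of_normal_left] at hg2
    obtain ⟨k, hk, h, hh, rfl⟩ := hg2
    exact ⟨⟨k, hNK hk⟩, hk, ⟨h, hHK hh⟩, hh, rfl⟩
  obtain ⟨L, hL, hHL, ρ, hρ⟩ := hyp K _ N' H' (IsFreeGroup.toFreeGroup N') hHFG hK2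
  haveI : K.FiniteIndex := Subgroup.finiteIndex_of_le hNK
  -- transport
  refine ⟨L.map K.subtype, ?_, ?_, ?_⟩
  · constructor
    have h1 : (L.map K.subtype).index = L.index * K.index := by
      rw [Subgroup.index_map_subtype]
    rw [h1]
    exact mul_ne_zero hL.index_ne_zero Subgroup.FiniteIndex.index_ne_zero
  · intro h hh
    exact ⟨⟨h, hHK hh⟩, hHL (show (⟨h, hHK hh⟩ : K) ∈ H' from hh), rfl⟩
  · let eL : L.map K.subtype ≃* L := (L.equivMapOfInjective K.subtype K.subtype_injective).symm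
    let eH : H' ≃* H := Subgroup.subgroupOfEquivOfLe hHK
    refine ⟨(eH : H' →* H).comp (ρ.comp (eL : L.map K.subtype →* L)), ?_⟩
    intro h
    have h1 : eL ⟨(h : G), ⟨⟨h, hHK h.2⟩, hHL (show (⟨h, hHK h.2⟩ : K) ∈ H' from h.2), rfl⟩⟩
        = ⟨⟨h, hHK h.2⟩, hHL (show (⟨h, hHK h.2⟩ : K) ∈ H' from h.2)⟩ := by
      apply (L.equivMapOfInjective K.subtype K.subtype_injective).injective
      rw [MulEquiv.apply_symm_apply]
      rfl
    show eH (ρ (eL _)) = h
    rw [h1]
    have h2 := hρ ⟨⟨h, hHK h.2⟩, h.2⟩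
    have h3 : ρ ⟨⟨h, hHK h.2⟩, hHL (show (⟨h, hHK h.2⟩ : K) ∈ H' from h.2)⟩
        = ⟨⟨h, hHK h.2⟩, h.2⟩ := h2
    rw [h3]
    rfl

end Q237.LR2
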